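import Pool.Agent.helper83.GR.Spec

set_option autoImplicit false

namespace Pool.Agent.GR

open Pool.Agent.helper58.DC Pool.Agent.DI

section

variable {Z : Type}

/-- the extension of `c` to all natural numbers -/
def KEY_ext (π : Equiv.Perm Z) (m : ℕ) (hm : 0 < m) (c : Fin m → Z) (i : ℕ) : Z :=
  (π ^ (i / m)) (c ⟨i % m, Nat.mod_lt _ hm⟩)

theorem KEY_ext_add (π : Equiv.Perm Z) (m : ℕ) (hm : 0 < m) (c : Fin m → Z) (i k : ℕ) :
    KEY_ext π m hm c (i + m * k) = (π ^ k) (KEY_ext π m hm c i) := by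
  unfold KEY_ext
  have h1 : (i + m * k) / m = k + i / m := by rw [Nat.add_mul_div_left _ _ hm, add_comm]
  have h2 : (⟨(i + m * k) % m, Nat.mod_lt _ hm⟩ : Fin m) = ⟨i % m, Nat.mod_lt _ hm⟩ :=
    Fin.ext (Nat.add_mul_mod_self_left _ _ _)
  rw [h1, h2, pow_add, Equiv.Perm.mul_apply]

theorem KEY_ext_lt (π : Equiv.Perm Z) (m : ℕ) (hm : 0 < m) (c : Fin m → Z) (i : Fin m) :
    KEY_ext π m hm c i = c i := by
  unfold KEY_ext
  have h1 : (i : ℕ) / m = 0 := Nat.div_eq_of_lt i.2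
  have h2 : (⟨(i : ℕ) % m, Nat.mod_lt _ hm⟩ : Fin m) = i := Fin.ext (Nat.mod_eq_of_lt i.2)
  rw [h1, h2, pow_zero, Equiv.Perm.one_apply]

/-- the shift -/
def KEY_shift (π : Equiv.Perm Z) (m : ℕ) (hm : 0 < m) (c : Fin m → Z) : Fin m → Z :=
  fun i => KEY_ext π m hm c (i + 1)

theorem KEY_ext_shift (π : Equiv.Perm Z) (m : ℕ) (hm : 0 < m) (c : Fin m → Z) (i : ℕ) :
    KEY_ext π m hm (KEY_shift π m hm c) i = KEY_ext π m hm c (i + 1) := by
  have h1 : KEY_ext π m hm (KEY_shift π m hm c) i =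
      (π ^ (i / m)) (KEY_ext π m hm c (i % m + 1)) := rfl
  rw [h1, ← KEY_ext_add]
  congr 1
  have := Nat.mod_add_div i m
  omega

theorem KEY_ext_inj (π : Equiv.Perm Z) (m : ℕ) (hm : 0 < m) (c c' : Fin m → Z)
    (h : ∀ i, KEY_ext π m hm c i = KEY_ext π m hm c' i) : c = c' := by
  funext i
  rw [← KEY_ext_lt π m hm c i, ← KEY_ext_lt π m hm c' i, h]

theorem KEY_ext_iter (π : Equiv.Perm Z) (m : ℕ) (hm : 0 < m) (j : ℕ) :
    ∀ (c : Fin m → Z) (i : ℕ),
    KEY_ext π m hm ((KEY_shift π m hm)^[j] c) i = KEY_ext π m hm c (i + j) := by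
  induction j with
  | zero => intro c i; rfl
  | succ j ih =>
    intro c i
    rw [Function.iterate_succ_apply, ih, KEY_ext_shift]
    rfl

theorem KEY_shift_inj (π : Equiv.Perm Z) (m : ℕ) (hm : 0 < m) :
    Function.Injective (KEY_shift π m hm) := by
  intro c c' h
  have h1 : ∀ i, KEY_ext π m hm c (i + 1) = KEY_ext π m hm c' (i + 1) := by
    intro i
    rw [← KEY_ext_shift, ← KEY_ext_shift, h]
  refine KEY_ext_inj π m hm c c' fun i => ?_
  rcases i with _ | i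
  · have h2 := h1 (m - 1)
    have h3 : m - 1 + 1 = 0 + m * 1 := by omega
    rw [h3, KEY_ext_add, KEY_ext_add] at h2
    exact (π ^ 1).injective h2
  · exact h1 i

theorem KEY_path [Fintype Z] (ε : Z → Z → ℂ)
    (hε : ∀ z w, ∑ u, ε z u * ε u w = ε z w) (k : ℕ) :
    ∀ g : Z → Z → ℂ, ∑ c : Fin (k + 2) → Z,
      (∏ i : Fin (k + 1), ε (c i.castSucc) (c i.succ)) * g (c 0) (c (Fin.last (k + 1))) =
      ∑ z, ∑ w, ε z w * g z w := by
  induction k with
  | zero =>
    intro g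
    rw [← (Fin.consEquiv (fun _ : Fin 2 => Z)).sum_comp, Fintype.sum_prod_type]
    refine Finset.sum_congr rfl fun z _ => ?_
    rw [← (Equiv.funUnique (Fin 1) Z).symm.sum_comp]
    refine Finset.sum_congr rfl fun w _ => ?_
    simp [Fin.consEquiv]
  | succ k ih =>
    intro g
    rw [← (Fin.consEquiv (fun _ : Fin (k + 1 + 2) => Z)).sum_comp, Fintype.sum_prod_type]
    refine Finset.sum_congr rfl fun z _ => ?_
    have h1 := ih (fun u v => ε z u * g z v)
    have h2 : ∀ c' : Fin (k + 2) → Z,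
        (∏ i : Fin (k + 1 + 1), ε ((Fin.consEquiv (fun _ : Fin (k + 1 + 2) => Z)) (z, c') i.castSucc)
          ((Fin.consEquiv (fun _ : Fin (k + 1 + 2) => Z)) (z, c') i.succ)) *
          g ((Fin.consEquiv (fun _ : Fin (k + 1 + 2) => Z)) (z, c') 0)
            ((Fin.consEquiv (fun _ : Fin (k + 1 + 2) => Z)) (z, c') (Fin.last (k + 1 + 1))) =
        (∏ i : Fin (k + 1), ε (c' i.castSucc) (c' i.succ)) *
          (ε z (c' 0) * g z (c' (Fin.last (k + 1)))) := by
      intro c'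
      rw [Fin.prod_univ_succ]
      have e1 : ((Fin.consEquiv (fun _ : Fin (k + 1 + 2) => Z)) (z, c')) =
        Fin.cons z c' := rfl
      rw [e1]
      have e2 : (Fin.cons z c' : Fin (k + 1 + 2) → Z) (Fin.last (k + 1 + 1)) =
        c' (Fin.last (k + 1)) := by
        rw [← Fin.succ_last, Fin.cons_succ]
      have e3 : ∀ i : Fin (k + 1), (Fin.cons z c' : Fin (k + 1 + 2) → Z) i.succ.castSucc =
        c' i.castSucc := by
        intro i
        rw [← Fin.succ_castSucc, Fin.cons_succ]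
      rw [e2]
      simp only [e3, Fin.cons_succ, Fin.cons_zero, Fin.castSucc_zero]
      ring
    rw [Finset.sum_congr rfl fun c' _ => h2 c', h1, Finset.sum_comm]
    refine Finset.sum_congr rfl fun w _ => ?_
    have h3 : ∀ u, ε u w * (ε z u * g z w) = (ε z u * ε u w) * g z w := fun u => by ring
    rw [Finset.sum_congr rfl fun u _ => h3 u, ← Finset.sum_mul, hε]

theorem KEY_trace [Fintype Z] (ε : Z → Z → ℂ) (π : Equiv.Perm Z)
    (hε : ∀ z w, ∑ u, ε z u * ε u w = ε z w) (m : ℕ) (hm : 0 < m) :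
    ∑ c : Fin m → Z, ∏ i ∈ Finset.range m,
      ε (KEY_ext π m hm c i) (KEY_ext π m hm c (i + 1)) = ∑ z, ε z (π z) := by
  obtain ⟨k, rfl⟩ : ∃ k, m = k + 1 := ⟨m - 1, by omega⟩
  have h0 : ∀ c : Fin (k + 1) → Z, ∏ i ∈ Finset.range (k + 1),
      ε (KEY_ext π (k + 1) hm c i) (KEY_ext π (k + 1) hm c (i + 1)) =
      (∏ i ∈ Finset.range k, ε (KEY_ext π (k + 1) hm c i) (KEY_ext π (k + 1) hm c (i + 1))) *
        ε (c (Fin.last k)) (π (c 0)) := by
    intro c
    rw [Finset.prod_range_succ]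
    have e1 : KEY_ext π (k + 1) hm c k = c (Fin.last k) := KEY_ext_lt π (k + 1) hm c (Fin.last k)
    have e2 : KEY_ext π (k + 1) hm c (k + 1) = π (c 0) := by
      have := KEY_ext_add π (k + 1) hm c 0 1
      rw [pow_one, mul_one, zero_add] at this
      rw [this]
      congr 1
      exact KEY_ext_lt π (k + 1) hm c 0
    rw [e1, e2]
  rw [Finset.sum_congr rfl fun c _ => h0 c]
  rcases k with _ | k
  · rw [← (Equiv.funUnique (Fin 1) Z).symm.sum_comp]
    refine Finset.sum_congr rfl fun w _ => ?_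
    simp
  · have h1 := KEY_path ε hε k (fun z w => ε w (π z))
    have h2 : ∀ c : Fin (k + 2) → Z, (∏ i ∈ Finset.range (k + 1),
        ε (KEY_ext π (k + 1 + 1) hm c i) (KEY_ext π (k + 1 + 1) hm c (i + 1))) *
        ε (c (Fin.last (k + 1))) (π (c 0)) =
        (∏ i : Fin (k + 1), ε (c i.castSucc) (c i.succ)) *
          ε (c (Fin.last (k + 1))) (π (c 0)) := by
      intro c
      rw [Finset.prod_range]
      congr 1
      refine Finset.prod_congr rfl fun i _ => ?_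
      have e1 : KEY_ext π (k + 1 + 1) hm c (i : ℕ) = c i.castSucc :=
        KEY_ext_lt π (k + 1 + 1) hm c i.castSucc
      have e2 : KEY_ext π (k + 1 + 1) hm c ((i : ℕ) + 1) = c i.succ :=
        KEY_ext_lt π (k + 1 + 1) hm c i.succ
      rw [e1, e2]
    rw [Finset.sum_congr rfl fun c _ => h2 c]
    refine h1.trans ?_
    refine Finset.sum_congr rfl fun z _ => ?_
    exact hε z (π z)

theorem KEY_wR (ε : Z → Z → ℂ) (π : Equiv.Perm Z) (hπ : ∀ z w, ε (π z) (π w) = ε z w)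
    (m : ℕ) (hm : 0 < m) (c : Fin m → Z) :
    ∏ i ∈ Finset.range m, ε (KEY_ext π m hm (KEY_shift π m hm c) i)
      (KEY_ext π m hm (KEY_shift π m hm c) (i + 1)) =
    ∏ i ∈ Finset.range m, ε (KEY_ext π m hm c i) (KEY_ext π m hm c (i + 1)) := by
  simp only [KEY_ext_shift]
  have h1 : ε (KEY_ext π m hm c m) (KEY_ext π m hm c (m + 1)) =
      ε (KEY_ext π m hm c 0) (KEY_ext π m hm c (0 + 1)) := by
    have e1 := KEY_ext_add π m hm c 0 1
    have e2 := KEY_ext_add π m hm c 1 1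
    rw [pow_one, mul_one, zero_add] at e1
    rw [pow_one, mul_one, add_comm 1 m] at e2
    rw [e1, e2, hπ]
  generalize hF : (fun i => ε (KEY_ext π m hm c i) (KEY_ext π m hm c (i + 1))) = F
  have hF' : ∀ i, ε (KEY_ext π m hm c i) (KEY_ext π m hm c (i + 1)) = F i := fun i => by
    rw [← hF]
  rw [hF', hF'] at h1
  simp only [hF']
  obtain ⟨k, hk⟩ : ∃ k, m = k + 1 := ⟨m - 1, by omega⟩
  rw [hk] at h1 ⊢
  rw [Finset.prod_range_succ, Finset.prod_range_succ', h1]

end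

theorem KEY (hORB : ORB_stmt) (hPRD : PRD_stmt) : KEY_stmt := by
  classical
  intro p M hS Z _ ε π n n₀ hn₀ hπ hI hE hinv hfix r
  have hT : Set.Finite {x : ℂ | ∃ z w, (π ^ n₀) z = z ∧ (π ^ n₀) w = w ∧ x = ε z w} := by
    refine (Set.finite_range (fun q : Z × Z => ε q.1 q.2)).subset ?_
    rintro x ⟨z, w, -, -, rfl⟩
    exact ⟨(z, w), rfl⟩
  obtain ⟨N, hN⟩ := hPRD p M hS {x : ℂ | ∃ z w, (π ^ n₀) z = z ∧ (π ^ n₀) w = w ∧ x = ε z w} hT
    (by
      rintro x ⟨z, w, hz, hw, rfl⟩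
      exact hfix z w hz hw) (r + 1)
  obtain ⟨l, hl⟩ : ∃ l, l = max r N := ⟨_, rfl⟩
  have hlr : r ≤ l := by rw [hl]; exact le_max_left _ _
  have hlN : N ≤ p ^ l := by
    have h1 : l < p ^ l := Nat.lt_pow_self hS.pr.one_lt
    have h2 : N ≤ l := by rw [hl]; exact le_max_right _ _
    omega
  obtain ⟨m, hm⟩ : ∃ m, m = p ^ l := ⟨_, rfl⟩
  have hm0 : 0 < m := by rw [hm]; exact pow_pos hS.pr.pos _
  obtain ⟨R, hR⟩ : ∃ R : Equiv.Perm (Fin m → Z), ∀ c, R c = KEY_shift π m hm0 c :=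
    ⟨Equiv.ofBijective _ (Finite.injective_iff_bijective.1 (KEY_shift_inj π m hm0)), fun _ => rfl⟩
  have hRf : (R : (Fin m → Z) → (Fin m → Z)) = KEY_shift π m hm0 := funext hR
  have hRj : ∀ j c i, KEY_ext π m hm0 ((R ^ j) c) i = KEY_ext π m hm0 c (i + j) := by
    intro j c i
    rw [← Equiv.Perm.iterate_eq_pow, hRf, KEY_ext_iter]
  obtain ⟨w, hw⟩ : ∃ w : (Fin m → Z) → ℂ, w = fun c => ∏ i ∈ Finset.range m,
    ε (KEY_ext π m hm0 c i) (KEY_ext π m hm0 c (i + 1)) := ⟨_, rfl⟩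
  have hwR : ∀ c, w (R c) = w c := by
    intro c
    rw [hw, hR]
    exact KEY_wR ε π hinv m hm0 c
  have hwRj : ∀ j c, w ((R ^ j) c) = w c := by
    intro j
    induction j with
    | zero => intro c; rfl
    | succ j ih => intro c; rw [pow_succ', Equiv.Perm.mul_apply, hwR, ih]
  have horb := hORB p M hS (Fin m → Z) (R ^ n₀) (l + n) r (by
    rw [← pow_mul]
    refine Equiv.ext fun c => ?_
    refine KEY_ext_inj π m hm0 _ _ fun i => ?_
    rw [hRj]
    have h1 : i + n₀ * p ^ (l + n) = i + m * (p ^ n * n₀) := by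
      rw [hm, pow_add]
      ring
    rw [h1, KEY_ext_add, hπ]
    rfl) w (by
      intro c
      rw [hw]
      exact IntAt.prod hS _ fun i _ => hI _ _) (fun c => hwRj n₀ c)
  obtain ⟨F, hF, hFs⟩ : ∃ F : Finset (Fin m → Z), (∀ c, c ∈ F ↔ ((R ^ n₀) ^ (p ^ r)) c = c) ∧
      Small p M (r + 1) (∑ c, w c - ∑ c ∈ F, w c) := ⟨_, fun c => by simp, horb⟩
  have hsmall : Small p M (r + 1) (∑ c ∈ F, w c) := by
    refine Small.sum hS _ fun c hc => ?_
    rw [hF] at hc
    have hc1 : ∀ i, KEY_ext π m hm0 c (i + n₀ * p ^ r) = KEY_ext π m hm0 c i := by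
      intro i
      have h2 := hc
      rw [← pow_mul] at h2
      rw [← hRj, h2]
    have hc2 : ∀ k i, KEY_ext π m hm0 c (i + n₀ * p ^ r * k) = KEY_ext π m hm0 c i := by
      intro k
      induction k with
      | zero => intro i; rfl
      | succ k ih =>
        intro i
        have h3 : i + n₀ * p ^ r * (k + 1) = (i + n₀ * p ^ r * k) + n₀ * p ^ r := by ring
        rw [h3, hc1, ih]
    have hc3 : ∀ i, (π ^ n₀) (KEY_ext π m hm0 c i) = KEY_ext π m hm0 c i := by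
      intro i
      have h3 := hc2 (p ^ (l - r)) i
      have h4 : i + n₀ * p ^ r * p ^ (l - r) = i + m * n₀ := by
        rw [hm, mul_assoc, ← pow_add, Nat.add_sub_cancel' hlr]
        ring
      rw [h4, KEY_ext_add] at h3
      exact h3
    have h5 : w c = ∏ i : Fin m, ε (KEY_ext π m hm0 c i) (KEY_ext π m hm0 c ((i : ℕ) + 1)) := by
      rw [hw]
      exact Finset.prod_range _
    rw [h5]
    exact hN m (by rw [hm]; exact hlN) _ fun i => ⟨_, _, hc3 _, hc3 _, rfl⟩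
  have htr := KEY_trace ε π hE m hm0
  have h6 : ∑ z, ε z (π z) = (∑ c, w c - ∑ c ∈ F, w c) + ∑ c ∈ F, w c := by
    rw [sub_add_cancel, ← htr, hw]
  rw [h6]
  exact Small.mono hS (Nat.le_succ r) (Small.add hS hFs hsmall)

end Pool.Agent.GR
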